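import Mathlib
import Pool.Agent.Helper29.SierLow.Chi

set_option autoImplicit false

namespace Pool.Agent.Results.MP_416c60_co.LowerBound

open Pool.Agent.Helper32.SierTri

/-- For every `n ≥ 10` the packing chromatic number of the Sierpinski triangle graph `ST^n_3` is at least `15`. -/
theorem result (n : ℕ) (hn : 10 ≤ n) :
    15 ≤ packingChromaticNumber (Pool.Agent.Helper32.SierTri.ST n) :=
  Pool.Agent.Helper29.SierLow.chi_lower hn

end Pool.Agent.Results.MP_416c60_co.LowerBound
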