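import Mathlib
import Pool.Agent.Helper32.SierQ.Conn

set_option autoImplicit false

namespace Pool.Agent.Results.MP_416c60_co.UpperBound

open Pool.Agent.Helper32.SierTri

/-- For every `n` the Sierpinski triangle graph `ST^n_3` has a packing colouring with the colours
`1, …, 16`. -/
theorem result (n : ℕ) : ∃ c : Vert n → ℕ, IsPackingColoring (Pool.Agent.Helper32.SierTri.ST n) 16 c :=
  Pool.Agent.Helper32.SierQ.packing_coloring n

end Pool.Agent.Results.MP_416c60_co.UpperBound
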